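import Mathlib
import Pool.Agent.Lib.MP_40b13d_lc.ForceClub
import Pool.Agent.Lib.MP_40b13d_lc.ZfSide
import Pool.Agent.Lib.MP_40b13d_lc.PartIb
import Pool.Agent.Lib.MP_40b13d_lc.Converse

/-!
# It is consistent that `PN_σ = PM_σ`

`Club E` is the sentence `(♣)` of the language of set theory, read in the structure `(M, E)`:
every set `A` of points of the Cantor space is either covered by countably many closed null sets,
or there is a countable set `Z` of closed sets of positive measure such that for every cover of `A`
by countably many closed sets some member of `Z` is contained in one of the sets of the cover.

* (i) There is a countable model of ZFC in which `(♣)` holds.  It comes from a forcing extension by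
  a finite support iteration, of length the successor of the continuum, of the forcing which adds a
  function dominating along finite sequences.
* (ii) If `(♣)` holds in the universe of sets then in every Polish space the countably perfectly
  meager sets are exactly the countably perfectly null sets.
-/

open Pool.Agent.Lib.Forcing
open Pool.Agent.Lib.MP_40b13d_lc

universe u

/-- (i) There is a countable model of ZFC in which `(♣)` holds.
(ii) If `(♣)` holds in the universe of sets, then `PM_σ = PN_σ` in all Polish spaces. -/
theorem Pool.Agent.Results.MP_40b13d_lc.Coincide.result :
    (∃ (M : Type) (E : M → M → Prop), Countable M ∧ IsZFC M E ∧ Club E) ∧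
    (Club (fun x y : ZFSet.{0} => x ∈ y) →
      ∀ (X : Type u) [TopologicalSpace X] [PolishSpace X] [MeasurableSpace X]
      [BorelSpace X] (A : Set X), CountablyPerfectlyMeager A ↔ CountablyPerfectlyNull A) :=
  ⟨exists_model, fun h _ _ _ _ _ _ =>
    ⟨main_of_clubMeas (clubMeas_of_Ein h), CountablyPerfectlyNull.meager⟩⟩
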